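import Mathlib
import Pool.Agent.W464.WLP.Defs

/-!
# From Gorenstein duality of a set of points to the failure of the weak Lefschetz property
-/

set_option autoImplicit false

open MvPolynomial

namespace Pool.Agent.W52.WLP

open Pool.Agent.W464.WLP

section General

variable {K : Type} [Field K] {n : ℕ} {Z : Type}

/-- restriction of polynomials to a line through the origin -/
noncomputable def U (p : Fin (n + 1) → K) : MvPolynomial (Fin (n + 1)) K →ₐ[K] Polynomial K :=
  MvPolynomial.aeval (fun i => Polynomial.C (p i) * Polynomial.X)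

theorem U_mono (p : Fin (n + 1) → K) (m : Fin (n + 1) →₀ ℕ) (a : K) :
    U p (monomial m a) = Polynomial.C (eval p (monomial m a)) * Polynomial.X ^ m.degree := by
  unfold U
  rw [aeval_monomial, eval_monomial, Finsupp.prod_fintype _ _ (fun i => pow_zero _),
    Finsupp.prod_fintype _ _ (fun i => pow_zero _)]
  simp only [mul_pow, Finset.prod_mul_distrib, Finset.prod_pow_eq_pow_sum]
  rw [Finsupp.degree_eq_sum]
  simp only [map_mul, map_prod, map_pow]
  rw [Polynomial.algebraMap_apply]
  simp only [Algebra.algebraMap_self, RingHom.id_apply]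
  ring

theorem U_hom (p : Fin (n + 1) → K) (f : MvPolynomial (Fin (n + 1)) K) (d : ℕ) (hf : f.IsHomogeneous d) :
    U p f = Polynomial.C (eval p f) * Polynomial.X ^ d := by
  have h1 : f = ∑ m ∈ f.support, monomial m (coeff m f) := (support_sum_monomial_coeff f).symm
  have h2 : ∀ m ∈ f.support, U p (monomial m (coeff m f)) =
      Polynomial.C (eval p (monomial m (coeff m f))) * Polynomial.X ^ d := by
    intro m hm
    rw [U_mono]
    congr 2
    by_contra hne
    exact (mem_support_iff.1 hm) (hf.coeff_eq_zero hne)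
  conv_lhs => rw [h1]
  conv_rhs => rw [h1]
  rw [map_sum, map_sum, map_sum, Finset.sum_mul]
  exact Finset.sum_congr rfl h2

theorem U_coeff (p : Fin (n + 1) → K) (f : MvPolynomial (Fin (n + 1)) K) (d : ℕ) :
    (U p f).coeff d = eval p (homogeneousComponent d f) := by
  have h1 : U p f = ∑ i ∈ Finset.range (f.totalDegree + 1),
      Polynomial.C (eval p (homogeneousComponent i f)) * Polynomial.X ^ i := by
    conv_lhs => rw [← sum_homogeneousComponent f]
    rw [map_sum]
    exact Finset.sum_congr rfl fun i _ => U_hom p _ i (homogeneousComponent_isHomogeneous i f)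
  rw [h1, Polynomial.finsetSum_coeff]
  simp only [Polynomial.coeff_C_mul, Polynomial.coeff_X_pow, mul_ite, mul_one, mul_zero]
  rw [Finset.sum_ite_eq (Finset.range (f.totalDegree + 1)) d
    (fun i => eval p (homogeneousComponent i f))]
  split_ifs with h2
  · rfl
  · rw [homogeneousComponent_eq_zero d f (by
      rw [Finset.mem_range, not_lt] at h2
      omega), map_zero]

/-- the ideal of the set -/
def gens (P : Z → Fin (n + 1) → K) : Set (MvPolynomial (Fin (n + 1)) K) :=
  {f | ∃ d : ℕ, f.IsHomogeneous d ∧ ∀ z, eval (P z) f = 0}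

theorem memI (P : Z → Fin (n + 1) → K) (f : MvPolynomial (Fin (n + 1)) K) :
    f ∈ Ideal.span (gens P) ↔ ∀ z, U (P z) f = 0 := by
  constructor
  · intro hf z
    have h1 : Ideal.span (gens P) ≤ RingHom.ker (U (P z)).toRingHom := by
      rw [Ideal.span_le]
      rintro g ⟨d, hg, hv⟩
      show (U (P z)) g = 0
      rw [U_hom _ _ d hg, hv z, Polynomial.C_0, zero_mul]
    exact h1 hf
  · intro hf
    rw [← sum_homogeneousComponent f]
    apply Ideal.sum_mem
    intro d _
    apply Ideal.subset_span
    refine ⟨d, homogeneousComponent_isHomogeneous d f, fun z => ?_⟩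
    rw [← U_coeff, hf z, Polynomial.coeff_zero]

/-- the linear form -/
noncomputable def Lf (c : Fin (n + 1) → K) : MvPolynomial (Fin (n + 1)) K :=
  ∑ i, C (c i) * (X i : MvPolynomial (Fin (n + 1)) K)

theorem Lf_hom (c : Fin (n + 1) → K) : (Lf c).IsHomogeneous 1 := by
  unfold Lf
  apply IsHomogeneous.sum
  intro i _
  exact isHomogeneous_C_mul_X _ _

theorem Lf_eval (c p : Fin (n + 1) → K) : eval p (Lf c) = ∑ i, c i * p i := by
  unfold Lf
  simp

theorem memJ (P : Z → Fin (n + 1) → K) (c : Fin (n + 1) → K) (f : MvPolynomial (Fin (n + 1)) K) :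
    f ∈ Ideal.span (gens P) ⊔ Ideal.span {Lf c} ↔
      ∃ g, ∀ z, U (P z) f = Polynomial.C (eval (P z) (Lf c)) * Polynomial.X * U (P z) g := by
  constructor
  · intro hf
    obtain ⟨u, hu, v, hv, rfl⟩ := Submodule.mem_sup.1 hf
    obtain ⟨g, rfl⟩ := Ideal.mem_span_singleton'.1 hv
    refine ⟨g, fun z => ?_⟩
    rw [map_add, (memI P u).1 hu z, zero_add, map_mul, U_hom _ _ 1 (Lf_hom c)]
    ring
  · rintro ⟨g, hg⟩
    have h1 : f - g * Lf c ∈ Ideal.span (gens P) := by
      rw [memI]
      intro z
      rw [map_sub, hg z, map_mul, U_hom _ _ 1 (Lf_hom c)]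
      ring
    have h2 : f = (f - g * Lf c) + g * Lf c := by ring
    rw [h2]
    exact Ideal.add_mem _ (Ideal.mem_sup_left h1)
      (Ideal.mem_sup_right (Ideal.mem_span_singleton'.2 ⟨g, rfl⟩))

theorem memS (P : Z → Fin (n + 1) → K) (d : ℕ) (φ : Z → K) :
    φ ∈ S P d ↔ ∃ h : MvPolynomial (Fin (n + 1)) K, h.IsHomogeneous d ∧ ∀ z, eval (P z) h = φ z := by
  unfold S ev
  rw [Submodule.mem_map]
  constructor
  · rintro ⟨h, hh, rfl⟩
    refine ⟨h, hh, fun z => ?_⟩
    rw [LinearMap.pi_apply]
    exact (aeval_eq_eval (P z) ▸ rfl : (aeval (P z)) h = eval (P z) h).symm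
  · rintro ⟨h, hh, hv⟩
    refine ⟨h, hh, ?_⟩
    funext z
    rw [LinearMap.pi_apply, ← hv z]
    exact (aeval_eq_eval (P z) ▸ rfl : (aeval (P z)) h = eval (P z) h)

theorem mulS (P : Z → Fin (n + 1) → K) {d e : ℕ} {φ ψ : Z → K} (hφ : φ ∈ S P d) (hψ : ψ ∈ S P e) :
    (fun z => φ z * ψ z) ∈ S P (d + e) := by
  obtain ⟨g, hg, hv⟩ := (memS P d φ).1 hφ
  obtain ⟨h, hh, hw⟩ := (memS P e ψ).1 hψ
  exact (memS P _ _).2 ⟨g * h, hg.mul hh, fun z => by rw [map_mul, hv, hw]⟩

/-- homogeneous elements of `J` of positive degree -/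
theorem memJ_hom (P : Z → Fin (n + 1) → K) (c : Fin (n + 1) → K) (f : MvPolynomial (Fin (n + 1)) K)
    (d : ℕ) (hf : f.IsHomogeneous (d + 1)) :
    f ∈ Ideal.span (gens P) ⊔ Ideal.span {Lf c} ↔
      ∃ ψ ∈ S P d, ∀ z, eval (P z) f = eval (P z) (Lf c) * ψ z := by
  rw [memJ]
  constructor
  · rintro ⟨g, hg⟩
    refine ⟨fun z => eval (P z) (homogeneousComponent d g), (memS P d _).2
      ⟨_, homogeneousComponent_isHomogeneous d g, fun z => rfl⟩, fun z => ?_⟩
    have h1 := congrArg (fun q => Polynomial.coeff q (d + 1)) (hg z)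
    beta_reduce at h1
    rw [U_hom _ _ _ hf, Polynomial.coeff_C_mul, Polynomial.coeff_X_pow, if_pos rfl, mul_one, mul_assoc,
      Polynomial.coeff_C_mul, Polynomial.coeff_X_mul, U_coeff] at h1
    exact h1
  · rintro ⟨ψ, hψ, hv⟩
    obtain ⟨h, hh, hw⟩ := (memS P d ψ).1 hψ
    refine ⟨h, fun z => ?_⟩
    rw [U_hom _ _ _ hf, U_hom _ _ _ hh, hv z, hw z, map_mul, pow_succ]
    ring

/-- the components of an element of `J` -/
theorem memJ_comp (P : Z → Fin (n + 1) → K) (c : Fin (n + 1) → K) (f : MvPolynomial (Fin (n + 1)) K)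
    (h : ∀ d, homogeneousComponent d f ∈ Ideal.span (gens P) ⊔ Ideal.span {Lf c}) :
    f ∈ Ideal.span (gens P) ⊔ Ideal.span {Lf c} := by
  rw [← sum_homogeneousComponent f]
  exact Ideal.sum_mem _ fun d _ => h d

/-- multiples by a variable in `J` -/
theorem memJ_X (P : Z → Fin (n + 1) → K) (c : Fin (n + 1) → K) (f : MvPolynomial (Fin (n + 1)) K)
    (i : Fin (n + 1)) (h : X i * f ∈ Ideal.span (gens P) ⊔ Ideal.span {Lf c}) (d : ℕ) :
    ∃ ψ ∈ S P d, ∀ z, P z i * eval (P z) (homogeneousComponent d f) = eval (P z) (Lf c) * ψ z := by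
  obtain ⟨g, hg⟩ := (memJ P c _).1 h
  refine ⟨fun z => eval (P z) (homogeneousComponent d g), (memS P d _).2
      ⟨_, homogeneousComponent_isHomogeneous d g, fun z => rfl⟩, fun z => ?_⟩
  have h1 := congrArg (fun q => Polynomial.coeff q (d + 1)) (hg z)
  beta_reduce at h1
  have h2 : U (P z) (X i * f) = Polynomial.C (P z i) * (Polynomial.X * U (P z) f) := by
    rw [map_mul]
    have h3 : U (P z) (X i) = Polynomial.C (P z i) * Polynomial.X := by
      unfold U
      exact aeval_X _ _
    rw [h3]
    ring
  rw [h2, Polynomial.coeff_C_mul, Polynomial.coeff_X_mul, U_coeff, mul_assoc,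
      Polynomial.coeff_C_mul, Polynomial.coeff_X_mul, U_coeff] at h1
  exact h1

variable [Fintype Z]

/-- orthogonality from the multiples by the coordinates -/
theorem orth_split (P : Z → Fin (n + 1) → K) (c : Z → K) (t : ℕ) (D : Dual P c t) (ψ : Z → K) (d e : ℕ)
    (hde : d + e = t) (hψ : ∀ i, (fun z => P z i * ψ z) ∈ S P d)
    (H : MvPolynomial (Fin (n + 1)) K) (hH : H.IsHomogeneous (e + 1)) :
    ∑ z, c z * (ψ z * eval (P z) H) = 0 := by
  induction hH using IsWeightedHomogeneous.induction_on with
  | zero => simp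
  | add p q _ _ hp hq =>
    simp only [map_add, mul_add, Finset.sum_add_distrib]
    rw [hp, hq, add_zero]
  | monomial m r hm =>
    have hm' : m.degree = e + 1 := by
      rw [Finsupp.degree_eq_weight_one]
      exact hm
    have h1 : ∃ i, m i ≠ 0 := by
      by_contra hcon
      push Not at hcon
      have h2 : m = 0 := Finsupp.ext hcon
      rw [h2] at hm'
      simp at hm'
    obtain ⟨i, hi⟩ := h1
    have h3 : m = Finsupp.single i 1 + (m - Finsupp.single i 1) := by
      ext j
      rw [Finsupp.add_apply, Finsupp.tsub_apply]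
      by_cases hj : i = j
      · subst hj
        rw [Finsupp.single_eq_same]
        omega
      · rw [Finsupp.single_eq_of_ne (fun h => hj h.symm)]
        omega
    have h4 : monomial m r = X i * monomial (m - Finsupp.single i 1) r := by
      conv_lhs => rw [h3]
      rw [X, monomial_mul, one_mul]
    have h5 : (monomial (m - Finsupp.single i 1) r).IsHomogeneous e := by
      apply isHomogeneous_monomial
      have h6 := congrArg Finsupp.degree h3
      rw [map_add, Finsupp.degree_single, hm'] at h6
      omega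
    have h6 := D.orth _ (hde ▸ mulS P (hψ i) ((memS P e _).2 ⟨_, h5, fun z => rfl⟩))
    rw [← h6]
    apply Finset.sum_congr rfl
    intro z _
    rw [h4, map_mul, eval_X]
    ring

end General

theorem exists_lin {K : Type} [Field K] {n : ℕ} (L : MvPolynomial (Fin (n + 1)) K)
    (hL : L.IsHomogeneous 1) : ∃ b : Fin (n + 1) → K, ∀ p, eval p L = ∑ i, b i * p i := by
  induction hL using IsWeightedHomogeneous.induction_on with
  | zero => exact ⟨0, by simp⟩
  | add p q _ _ hp hq =>
    obtain ⟨b, hb⟩ := hp
    obtain ⟨b', hb'⟩ := hq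
    refine ⟨b + b', fun x => ?_⟩
    rw [map_add, hb, hb', ← Finset.sum_add_distrib]
    exact Finset.sum_congr rfl fun i _ => by rw [Pi.add_apply]; ring
  | monomial m r hm =>
    have hm' : m.degree = 1 := by
      rw [Finsupp.degree_eq_weight_one]
      exact hm
    refine ⟨fun i => r * m i, fun x => ?_⟩
    have h1 : ∃ i, m i ≠ 0 := by
      by_contra hcon
      push Not at hcon
      have h2 : m = 0 := Finsupp.ext hcon
      rw [h2] at hm'
      simp at hm'
    obtain ⟨i, hi⟩ := h1
    have h2 : m = Finsupp.single i 1 := by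
      have h3 : m = Finsupp.single i 1 + (m - Finsupp.single i 1) := by
        ext j
        rw [Finsupp.add_apply, Finsupp.tsub_apply]
        by_cases hj : i = j
        · subst hj
          rw [Finsupp.single_eq_same]
          omega
        · rw [Finsupp.single_eq_of_ne (fun h => hj h.symm)]
          omega
      have h6 := congrArg Finsupp.degree h3
      rw [map_add, Finsupp.degree_single, hm'] at h6
      have h7 : (m - Finsupp.single i 1).degree = 0 := by omega
      rw [Finsupp.degree_eq_zero_iff] at h7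
      rw [h7, add_zero] at h3
      exact h3
    rw [h2, eval_monomial, Finsupp.prod_single_index (by simp), pow_one]
    rw [Finset.sum_eq_single i]
    · beta_reduce
      rw [Finsupp.single_eq_same]; push_cast; ring
    · intro j _ hj
      beta_reduce
      rw [Finsupp.single_eq_of_ne hj]; push_cast; ring
    · intro h
      exact absurd (Finset.mem_univ i) h

theorem t1 : T1 := by
  classical
  intro K _ _ n Z _ P c _ hP0 D hφ hS
  -- a nonzero polynomial
  have hQ : ∀ z, Lf (P z) ≠ 0 := by
    intro z hz
    apply hP0 z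
    funext i
    have h1 := congrArg (fun f => eval (Pi.single i 1 : Fin (n + 1) → K) f) hz
    simp only [Lf_eval, map_zero] at h1
    rw [Finset.sum_eq_single i] at h1
    · simpa using h1
    · intro j _ hj
      simp [hj]
    · intro h
      exact absurd (Finset.mem_univ i) h
  have hcomm : ∀ a b : Fin (n + 1) → K, eval a (Lf b) = eval b (Lf a) := by
    intro a b
    rw [Lf_eval, Lf_eval]
    exact Finset.sum_congr rfl fun i _ => mul_comm _ _
  have hgen : ∀ F : MvPolynomial (Fin (n + 1)) K, F ≠ 0 →
      ∃ c : Fin (n + 1) → K, eval c F ≠ 0 ∧ ∀ z, eval (P z) (Lf c) ≠ 0 := by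
    intro F hF
    have h1 : F * ∏ z, Lf (P z) ≠ 0 := mul_ne_zero hF (Finset.prod_ne_zero_iff.2 fun z _ => hQ z)
    have h2 : ∃ x : Fin (n + 1) → K, eval x (F * ∏ z, Lf (P z)) ≠ 0 := by
      by_contra hcon
      push Not at hcon
      apply h1
      apply MvPolynomial.funext
      intro x
      rw [hcon x, map_zero]
    obtain ⟨x, hx⟩ := h2
    rw [map_mul, map_prod] at hx
    refine ⟨x, left_ne_zero_of_mul hx, fun z => ?_⟩
    rw [hcomm]
    exact (Finset.prod_ne_zero_iff.1 (right_ne_zero_of_mul hx)) z (Finset.mem_univ z)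
  have hperp0 : ∀ ψ : Z → K, (∀ φ : Z → K, ∑ z, c z * (ψ z * φ z) = 0) → ∀ z, ψ z = 0 := by
    intro ψ h z
    have h1 := h (Pi.single z 1)
    rw [Finset.sum_eq_single z] at h1
    · rw [Pi.single_eq_same, mul_one] at h1
      exact (mul_eq_zero.1 h1).resolve_left (D.cne z)
    · intro w _ hw
      rw [Pi.single_eq_of_ne hw, mul_zero, mul_zero]
    · intro h
      exact absurd (Finset.mem_univ z) h
  have htop : ∀ d, 4 < d → ∀ φ : Z → K, φ ∈ S P d := by
    intro d hd φ
    rw [D.top d hd]
    exact Submodule.mem_top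
  -- some point
  have hne : Nonempty Z := by
    obtain ⟨φ, h1, -, -⟩ := hφ 0 0
    by_contra hcon
    rw [not_nonempty_iff] at hcon
    apply h1
    have h2 : φ = 0 := funext fun z => (hcon.false z).elim
    rw [h2]
    exact Submodule.zero_mem _
  obtain ⟨z0⟩ := hne
  have hgens : {f : MvPolynomial (Fin (n + 1)) K |
            ∃ d : ℕ, f.IsHomogeneous d ∧ ∀ p ∈ Finset.univ.image P, eval p f = 0} = gens P := by
    ext f
    unfold gens
    simp only [Set.mem_ofPred_eq, Finset.mem_image, Finset.mem_univ, true_and, forall_exists_index,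
      forall_apply_eq_imp_iff]
  obtain ⟨F, hF, hbad⟩ := hS K n (Finset.univ.image P) (by
      intro p hp
      obtain ⟨z, -, rfl⟩ := Finset.mem_image.1 hp
      exact hP0 z) _ rfl (fun c => Ideal.span {f : MvPolynomial (Fin (n + 1)) K |
            ∃ d : ℕ, f.IsHomogeneous d ∧ ∀ p ∈ Finset.univ.image P, eval p f = 0} ⊔
            Ideal.span {Lf c}) (fun c => rfl) (by
      simp only [hgens]
      obtain ⟨c0, -, hc0⟩ := hgen 1 one_ne_zero
      refine ⟨c0, ?_, ?_⟩
      · intro p hp
        obtain ⟨z, -, rfl⟩ := Finset.mem_image.1 hp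
        exact hc0 z
      -- the socle element
      obtain ⟨s, hs, hsv⟩ := (memS P 5 _).1 (htop 5 (by norm_num)
        (fun z => eval (P z) (Lf c0) * (Pi.single z0 ((c z0)⁻¹) : Z → K) z))
      have hsum : ∑ z, c z * (Pi.single z0 ((c z0)⁻¹) : Z → K) z = 1 := by
        rw [Finset.sum_eq_single z0]
        · rw [Pi.single_eq_same, mul_inv_cancel₀ (D.cne z0)]
        · intro w _ hw
          rw [Pi.single_eq_of_ne hw, mul_zero]
        · intro h
          exact absurd (Finset.mem_univ z0) h
      refine ⟨s, ?_, ?_, ?_⟩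
      · intro hsJ
        obtain ⟨ψ, hψ, hv⟩ := (memJ_hom P c0 s 4 hs).1 hsJ
        have h1 := D.orth ψ hψ
        have h2 : ∀ z, ψ z = (Pi.single z0 ((c z0)⁻¹) : Z → K) z := by
          intro z
          have h3 := hv z
          rw [hsv z] at h3
          exact (mul_left_cancel₀ (hc0 z) h3).symm
        rw [Finset.sum_congr rfl fun z _ => by rw [h2 z], hsum] at h1
        exact one_ne_zero h1
      · intro i
        rw [memJ_hom P c0 (X i * s) 5 (by
          have h7 := (isHomogeneous_X K i).mul hs
          exact h7)]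
        refine ⟨fun z => P z i * (Pi.single z0 ((c z0)⁻¹) : Z → K) z, htop 5 (by norm_num) _, fun z => ?_⟩
        rw [map_mul, eval_X, hsv z]
        ring
      · intro f hf
        -- the functions `φ d / ℓ`
        obtain ⟨χ, hχ⟩ : ∃ χ : ℕ → Z → K, χ = fun d z => (eval (P z) (Lf c0))⁻¹ *
          eval (P z) (homogeneousComponent d f) := ⟨_, rfl⟩
        have hχe : ∀ d z, eval (P z) (homogeneousComponent d f) = eval (P z) (Lf c0) * χ d z := by
          intro d z
          rw [hχ]
          simp only
          rw [mul_inv_cancel_left₀ (hc0 z)]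
        have hχX : ∀ d i, (fun z => P z i * χ d z) ∈ S P d := by
          intro d i
          obtain ⟨ψ, hψ, hv⟩ := memJ_X P c0 f i (hf i) d
          have h1 : (fun z => P z i * χ d z) = ψ := by
            funext z
            have h2 := hv z
            rw [hχe d z, mul_left_comm] at h2
            exact mul_left_cancel₀ (hc0 z) h2
          rw [h1]
          exact hψ
        refine ⟨∑ z, c z * χ 5 z, ?_⟩
        apply memJ_comp
        intro d
        have hcomp : homogeneousComponent d (f - C (∑ z, c z * χ 5 z) * s) =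
            homogeneousComponent d f - C (∑ z, c z * χ 5 z) * (if d = 5 then s else 0) := by
          rw [map_sub, homogeneousComponent_C_mul, homogeneousComponent_of_mem hs]
        rw [hcomp]
        rcases Nat.lt_or_ge d 6 with hd6 | hd6
        · rcases Nat.eq_zero_or_pos d with hd0 | hd0
          · subst hd0
            rw [if_neg (by norm_num), mul_zero, sub_zero]
            apply Ideal.mem_sup_left
            apply Ideal.subset_span
            refine ⟨0, homogeneousComponent_isHomogeneous 0 f, fun z => ?_⟩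
            rw [hχe 0 z]
            have h1 : χ 0 z = 0 := by
              apply hperp0 (χ 0) _ z
              intro φ
              obtain ⟨h, hh, hhv⟩ := (memS P 5 φ).1 (htop 5 (by norm_num) φ)
              have h2 := orth_split P c 4 D (χ 0) 0 4 (by norm_num) (hχX 0) h hh
              rw [← h2]
              exact Finset.sum_congr rfl fun z _ => by rw [hhv z]
            rw [h1, mul_zero]
          · by_cases hd5 : d = 5
            · subst hd5
              rw [if_pos rfl]
              rw [memJ_hom P c0 _ 4 (by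
                apply IsHomogeneous.sub (homogeneousComponent_isHomogeneous 5 f)
                exact hs.C_mul _)]
              refine ⟨fun z => χ 5 z - (∑ z, c z * χ 5 z) * (Pi.single z0 ((c z0)⁻¹) : Z → K) z, ?_, ?_⟩
              · apply D.perp 4 le_rfl
                intro ψ hψ
                obtain ⟨h, hh, hhv⟩ := (memS P (4 - 4) ψ).1 hψ
                have h0 : ∃ r : K, h = C r := by
                  have h2 := homogeneousComponent_eq_self hh
                  have h3 : homogeneousComponent (4 - 4) h = C (coeff 0 h) := homogeneousComponent_zero h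
                  exact ⟨coeff 0 h, by rw [← h3, h2]⟩
                obtain ⟨r, rfl⟩ := h0
                have h3 : ∀ z, ψ z = r := fun z => by rw [← hhv z, eval_C]
                have h4 : ∑ z, c z * ((χ 5 z - (∑ z, c z * χ 5 z) * (Pi.single z0 ((c z0)⁻¹) : Z → K) z) * ψ z) =
                    (∑ z, c z * χ 5 z - (∑ z, c z * χ 5 z) *
                      ∑ z, c z * (Pi.single z0 ((c z0)⁻¹) : Z → K) z) * r := by
                  rw [Finset.mul_sum, ← Finset.sum_sub_distrib, Finset.sum_mul]
                  apply Finset.sum_congr rfl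
                  intro z _
                  rw [h3 z]
                  ring
                rw [h4, hsum, mul_one, sub_self, zero_mul]
              · intro z
                rw [map_sub, map_mul, eval_C, hχe 5 z, hsv z]
                ring
            · rw [if_neg hd5, mul_zero, sub_zero]
              obtain ⟨e, rfl⟩ : ∃ e, d = e + 1 := ⟨d - 1, by omega⟩
              rw [memJ_hom P c0 _ e (homogeneousComponent_isHomogeneous _ f)]
              refine ⟨χ (e + 1), ?_, fun z => hχe _ z⟩
              apply D.perp e (by omega)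
              intro ψ hψ
              obtain ⟨h, hh, hhv⟩ := (memS P (4 - e) ψ).1 hψ
              have h2 := orth_split P c 4 D (χ (e + 1)) (e + 1) (3 - e) (by omega) (hχX (e + 1)) h (by
                have : 3 - e + 1 = 4 - e := by omega
                rw [this]; exact hh)
              rw [← h2]
              exact Finset.sum_congr rfl fun z _ => by rw [hhv z]
        · rw [if_neg (by omega), mul_zero, sub_zero]
          obtain ⟨e, rfl⟩ : ∃ e, d = e + 1 := ⟨d - 1, by omega⟩
          rw [memJ_hom P c0 _ e (homogeneousComponent_isHomogeneous _ f)]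
          exact ⟨χ (e + 1), htop e (by omega) _, fun z => hχe _ z⟩)
  -- failure
  simp only [hgens] at hbad
  obtain ⟨c1, hFc, hc1⟩ := hgen F hF
  obtain ⟨L, hL, hLd⟩ := hbad c1 hFc
  obtain ⟨b, hb⟩ := exists_lin L hL
  obtain ⟨φ, hφ1, hφ2, hφ3⟩ := hφ c1 b
  have hφ2' : (fun z => eval (P z) (Lf c1) * φ z) ∈ S P 2 := by
    have h1 : (fun z => eval (P z) (Lf c1) * φ z) = (fun z => (∑ i, c1 i * P z i) * φ z) := by
      funext z
      rw [Lf_eval]
    rw [h1]
    exact hφ2
  have hφ3' : (fun z => eval (P z) L * φ z) ∈ S P 2 := by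
    have h1 : (fun z => eval (P z) L * φ z) = (fun z => (∑ i, b i * P z i) * φ z) := by
      funext z
      rw [hb]
    rw [h1]
    exact hφ3
  rcases hLd 2 with h | h
  · obtain ⟨f, hf, hfv⟩ := (memS P 2 _).1 hφ2'
    have h1 : L * f ∈ Ideal.span (gens P) ⊔ Ideal.span {Lf c1} := by
      rw [memJ_hom P c1 (L * f) 2 (by
        have := hL.mul hf
        exact this)]
      refine ⟨_, hφ3', fun z => ?_⟩
      rw [map_mul, hfv z]
      ring
    have h2 := h f hf h1
    obtain ⟨ψ, hψ, hv⟩ := (memJ_hom P c1 f 1 hf).1 h2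
    apply hφ1
    have h3 : φ = ψ := by
      funext z
      have h4 := hv z
      rw [hfv z] at h4
      exact mul_left_cancel₀ (hc1 z) h4
    rw [h3]
    exact hψ
  · apply hφ1
    apply D.perp 1 (by norm_num)
    intro ψ hψ
    obtain ⟨g, hg, hgv⟩ := (memS P (4 - 1) ψ).1 hψ
    obtain ⟨f, hf, hfJ⟩ := h g hg
    obtain ⟨χ, hχ, hχv⟩ := (memJ_hom P c1 (g - L * f) 2 (by
      apply IsHomogeneous.sub hg
      exact hL.mul hf)).1 hfJ
    have h1 := D.orth _ (mulS P hφ3' ((memS P 2 _).2 ⟨f, hf, fun z => rfl⟩))
    have h2 := D.orth _ (mulS P hφ2' hχ)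
    have h3 : ∑ z, c z * (φ z * ψ z) =
        ∑ z, c z * (eval (P z) L * φ z * eval (P z) f) +
        ∑ z, c z * (eval (P z) (Lf c1) * φ z * χ z) := by
      rw [← Finset.sum_add_distrib]
      apply Finset.sum_congr rfl
      intro z _
      have h4 := hχv z
      rw [map_sub, map_mul, hgv z] at h4
      have h5 : ψ z = eval (P z) L * eval (P z) f + eval (P z) (Lf c1) * χ z := by
        rw [← h4]; ring
      rw [h5]
      ring
    rw [h3, h1, h2, add_zero]

end Pool.Agent.W52.WLP
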